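import Pool.Agent.helper61.CSW.W.SpecW

/-! csw, row INE (helper58): the inequality. -/

set_option autoImplicit false

open Complex Metric Set Filter Topology MeasureTheory
open YPPS (fd fdd pre TT CV IsCyc rho Exact)
open MPS (BB)
open Pool.Agent.helper98.ILF (juliaSet fatouSet)

noncomputable section

open CSS (SE SV JJ)

namespace YW

/-- dominated convergence for integrals over sets which eventually contain almost every point. -/
theorem INE_lim (F : ℂ → ℂ) (hF : Integrable F) (S : ℕ → Set ℂ) (hS : ∀ n, MeasurableSet (S n))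
    (h : ∀ᵐ z : ℂ, ∀ᶠ n in atTop, z ∈ S n) :
    Tendsto (fun n => ∫ z in S n, F z) atTop (𝓝 (∫ z : ℂ, F z)) := by
  have h1 : ∀ n, ∫ z in S n, F z = ∫ z : ℂ, (S n).indicator F z := fun n =>
    (integral_indicator (hS n)).symm
  simp_rw [h1]
  refine tendsto_integral_of_dominated_convergence (fun z => ‖F z‖)
    (fun n => (hF.aestronglyMeasurable.indicator (hS n))) hF.norm ?_ ?_
  · intro n
    refine ae_of_all _ fun z => ?_
    exact norm_indicator_le_norm_self _ _
  · filter_upwards [h] with z hz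
    refine tendsto_const_nhds.congr' ?_
    filter_upwards [hz] with n hn
    rw [indicator_of_mem hn]

/-- a periodic orbit. -/
theorem INE_it {k : ℕ} [NeZero k] (f : SE) (b : ZMod k → ℂ) (hb : IsCyc f b) (m : ℕ) (i : ZMod k) :
    it f m (b i) = b (i + m) := by
  induction m with
  | zero => simp [it]
  | succ m ih =>
    have h1 : it f (m + 1) (b i) = f.eval (it f m (b i)) := by
      show (fun w : ℂ => f.eval w)^[m + 1] (b i) = f.eval ((fun w : ℂ => f.eval w)^[m] (b i))
      rw [Function.iterate_succ_apply']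
    rw [h1, ih, hb.step]
    congr 1
    push_cast
    ring

theorem INE_TT {k : ℕ} [NeZero k] (f : SE) (b : ZMod k → ℂ) (κ : ZMod k → ℝ) (ε : ℝ) (q : ℂ → ℂ) (z : ℂ) :
    TT f ((FKE f b κ ε).indicator q) z = (KE b κ ε).indicator (TT f q) z := by
  by_cases hz : z ∈ KE b κ ε
  · rw [indicator_of_mem hz]
    show ∑' y : pre f z, (FKE f b κ ε).indicator q y / fd f y ^ 2 = ∑' y : pre f z, q y / fd f y ^ 2
    refine tsum_congr fun y => ?_
    have hy : (y : ℂ) ∈ FKE f b κ ε := by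
      show f.eval (y : ℂ) ∈ KE b κ ε
      have : f.eval (y : ℂ) = z := y.2
      rw [this]
      exact hz
    rw [indicator_of_mem hy]
  · rw [indicator_of_notMem hz]
    show ∑' y : pre f z, (FKE f b κ ε).indicator q y / fd f y ^ 2 = 0
    have h1 : ∀ y : pre f z, (FKE f b κ ε).indicator q y / fd f y ^ 2 = 0 := by
      intro y
      have hy : (y : ℂ) ∉ FKE f b κ ε := by
        intro h
        have h2 : f.eval (y : ℂ) ∈ KE b κ ε := h
        have : f.eval (y : ℂ) = z := y.2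
        rw [this] at h2
        exact hz h2
      rw [indicator_of_notMem hy, zero_div]
    simp [h1]

theorem INE (hLIM : LIM_stmt) (hKAP : KAP_stmt) (hQIN : QIN_stmt) (hGDU : GDU_stmt) (hDBW : DBW_stmt)
    (hTIN : CSS.TIN_stmt) (hTRC : CSS.TRC_stmt) (hCRC : SPPS.CRC_stmt) : INE_stmt := by
  intro f X E μ w hF hp1 hp2 k _ b g c₁ c₂ c hC hR hbE
  set q := qc X b g c₁ c₂ with hq
  have ha : ∀ i, 0 < ‖fd f (b i)‖ := fun i => norm_pos_iff.mpr (hC.cyc.ne0 i)
  obtain ⟨κ, hκ, hκs⟩ := hKAP k (fun i => ‖fd f (b i)‖) ha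
  have hrho : (∏ i, ‖fd f (b i)‖) = ‖rho f b‖ := by
    show _ = ‖∏ i, fd f (b i)‖
    rw [norm_prod]
  rw [hrho] at hκs
  obtain ⟨-, hAD, hK⟩ := hQIN f X k b g c₁ c₂ hC
  have hK' := hK κ hκ
  have hL := hLIM f X k b g c₁ c₂ hC κ hκ
  -- the radii
  set e : ℕ → ℝ := fun n => 1 / ((n : ℝ) + 1) with he
  have he0 : ∀ n, 0 < e n := fun n => by positivity
  have het : Tendsto e atTop (𝓝 0) := tendsto_one_div_add_atTop_nhds_zero_nat
  -- integrability of μ RS
  have hRSi : Integrable (RS (ES f X) c) := hTRC ℂ (ES f X) c (fun e => e) hR.mz.1 hR.mz.2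
  have hμRS : Integrable (fun z : ℂ => μ z * RS (ES f X) c z) :=
    hRSi.bdd_mul hF.meas.aestronglyMeasurable (ae_of_all _ hF.bd)
  -- dbar w q
  have hper : ∀ z ∈ tsupport w, z ∈ (Set.range b ∪ {X.p₁, X.p₂})ᶜ := by
    intro z hz hzP
    rcases hzP with ⟨i, rfl⟩ | hzP
    · refine hbE i (hF.per _ hz k (Nat.one_le_iff_ne_zero.mpr (NeZero.ne k)) ?_)
      rw [INE_it f b hC.cyc k i]
      simp
    · rcases hzP with rfl | hzP
      · exact hp1 (hF.per _ hz 1 le_rfl X.fix1)
      · have hzP' : z = X.p₂ := hzP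
        subst hzP'
        exact hp2 (hF.per _ hz 1 le_rfl X.fix2)
  have hopen : IsOpen (Set.range b ∪ {X.p₁, X.p₂})ᶜ := hAD.fin.isClosed.isOpen_compl
  obtain ⟨hdi, hd0⟩ := hDBW w q _ hF.wc hF.ws hopen hper hAD.dif
  -- the sets
  have hKa : ∀ᵐ z : ℂ, ∀ᶠ n in atTop, z ∈ KE b κ (e n) := by
    have h1 : ∀ᵐ z : ℂ, z ∉ Set.range b :=
      (Set.finite_range b).countable.ae_notMem _
    filter_upwards [h1] with z hz
    have h2 : ∀ i : ZMod k, ∀ᶠ n in atTop, e n * κ i ≤ ‖z - b i‖ := by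
      intro i
      have h3 : 0 < ‖z - b i‖ := norm_pos_iff.mpr (fun h => hz ⟨i, (sub_eq_zero.mp h).symm⟩)
      have h4 : Tendsto (fun n => e n * κ i) atTop (𝓝 (0 * κ i)) := het.mul_const _
      rw [zero_mul] at h4
      exact (h4.eventually (gt_mem_nhds h3)).mono fun n hn => hn.le
    exact (eventually_all.mpr h2)
  have hFa : ∀ᵐ z : ℂ, ∀ᶠ n in atTop, z ∈ FKE f b κ (e n) := by
    have h1 : ∀ᵐ z : ℂ, z ∉ {y : ℂ | f.eval y ∈ Set.range b} :=
      ((hCRC f).2.1 _ (Set.finite_range b).countable).ae_notMem _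
    filter_upwards [h1] with z hz
    have h2 : ∀ i : ZMod k, ∀ᶠ n in atTop, e n * κ i ≤ ‖f.eval z - b i‖ := by
      intro i
      have h3 : 0 < ‖f.eval z - b i‖ :=
        norm_pos_iff.mpr (fun h => hz ⟨i, (sub_eq_zero.mp h).symm⟩)
      have h4 : Tendsto (fun n => e n * κ i) atTop (𝓝 (0 * κ i)) := het.mul_const _
      rw [zero_mul] at h4
      exact (h4.eventually (gt_mem_nhds h3)).mono fun n hn => hn.le
    exact (eventually_all.mpr h2)
  have hlim1 : Tendsto (fun n => ∫ z in KE b κ (e n), μ z * RS (ES f X) c z) atTop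
      (𝓝 (∫ z : ℂ, μ z * RS (ES f X) c z)) :=
    INE_lim _ hμRS _ (fun n => (hK' (e n) (he0 n)).1) hKa
  have hlim2 : Tendsto (fun n => ∫ z in FKE f b κ (e n), BR.dbar w z * q z) atTop (𝓝 0) := by
    have := INE_lim _ hdi _ (fun n => (hK' (e n) (he0 n)).2.1) hFa
    rw [hd0] at this
    exact this
  -- the identity
  have hid : ∀ ε : ℝ, 0 < ε → (∫ z in KE b κ ε, μ z * RS (ES f X) c z) =
      ((∫ z in FKE f b κ ε, μ z * q z) - ∫ z in KE b κ ε, μ z * q z) +
        1 / (Real.pi : ℂ) * ∫ z in FKE f b κ ε, BR.dbar w z * q z := by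
    intro ε hε
    obtain ⟨hm1, hm2, hi1, hi2⟩ := hK' ε hε
    have hB : Integrable ((FKE f b κ ε).indicator q) := (integrable_indicator_iff hm2).mpr hi2
    have hBK : Integrable ((KE b κ ε).indicator q) := (integrable_indicator_iff hm1).mpr hi1
    obtain ⟨-, hTi, -, -⟩ := hTIN f _ hB
    have h1 := hGDU f E μ w _ hF hB
    have i1 : Integrable (fun z : ℂ => μ z * TT f ((FKE f b κ ε).indicator q) z) :=
      hTi.bdd_mul hF.meas.aestronglyMeasurable (ae_of_all _ hF.bd)
    have i2 : Integrable (fun z : ℂ => μ z * (KE b κ ε).indicator q z) :=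
      hBK.bdd_mul hF.meas.aestronglyMeasurable (ae_of_all _ hF.bd)
    have e1 : (∫ z in KE b κ ε, μ z * RS (ES f X) c z) =
        ∫ z : ℂ, (μ z * TT f ((FKE f b κ ε).indicator q) z - μ z * (KE b κ ε).indicator q z) := by
      rw [← integral_indicator hm1]
      refine integral_congr_ae ?_
      filter_upwards [hR.eq] with z hz
      rw [INE_TT]
      by_cases hzK : z ∈ KE b κ ε
      · rw [indicator_of_mem hzK, indicator_of_mem hzK, indicator_of_mem hzK, ← hz]
        ring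
      · rw [indicator_of_notMem hzK, indicator_of_notMem hzK, indicator_of_notMem hzK]
        ring
    have e2 : (∫ z : ℂ, μ z * (FKE f b κ ε).indicator q z) = ∫ z in FKE f b κ ε, μ z * q z := by
      rw [← integral_indicator hm2]
      refine integral_congr_ae (ae_of_all _ fun z => ?_)
      by_cases hzK : z ∈ FKE f b κ ε
      · simp only [indicator_of_mem hzK]
      · simp only [indicator_of_notMem hzK, mul_zero]
    have e3 : (∫ z : ℂ, μ z * (KE b κ ε).indicator q z) = ∫ z in KE b κ ε, μ z * q z := by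
      rw [← integral_indicator hm1]
      refine integral_congr_ae (ae_of_all _ fun z => ?_)
      by_cases hzK : z ∈ KE b κ ε
      · simp only [indicator_of_mem hzK]
      · simp only [indicator_of_notMem hzK, mul_zero]
    have e4 : (∫ z : ℂ, BR.dbar w z * (FKE f b κ ε).indicator q z) =
        ∫ z in FKE f b κ ε, BR.dbar w z * q z := by
      rw [← integral_indicator hm2]
      refine integral_congr_ae (ae_of_all _ fun z => ?_)
      by_cases hzK : z ∈ FKE f b κ ε
      · simp only [indicator_of_mem hzK]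
      · simp only [indicator_of_notMem hzK, mul_zero]
    rw [e1, integral_sub i1 i2, h1, e2, e3, e4]
    ring
  -- the common conclusion
  have hcon : ∀ A : ℝ, (∀ τ > (0 : ℝ), ∃ ε₀ > (0 : ℝ), ∀ ε : ℝ, 0 < ε → ε < ε₀ →
      ‖(∫ z in FKE f b κ ε, μ z * q z) - ∫ z in KE b κ ε, μ z * q z‖ ≤ A + τ) →
      ‖∫ z : ℂ, μ z * RS (ES f X) c z‖ ≤ A := by
    intro A hA
    refine le_of_forall_pos_le_add fun τ hτ => ?_
    obtain ⟨ε₀, hε₀, h1⟩ := hA τ hτ
    have h2 : ∀ᶠ n in atTop, e n < ε₀ := het.eventually (gt_mem_nhds hε₀)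
    have h3 : Tendsto (fun n => (∫ z in KE b κ (e n), μ z * RS (ES f X) c z) -
        1 / (Real.pi : ℂ) * ∫ z in FKE f b κ (e n), BR.dbar w z * q z) atTop
        (𝓝 ((∫ z : ℂ, μ z * RS (ES f X) c z) - 1 / (Real.pi : ℂ) * 0)) :=
      hlim1.sub (hlim2.const_mul _)
    rw [mul_zero, sub_zero] at h3
    refine le_of_tendsto h3.norm ?_
    filter_upwards [h2] with n hn
    rw [hid (e n) (he0 n), add_sub_cancel_right]
    exact h1 (e n) (he0 n) hn
  constructor
  · refine hcon _ fun τ hτ => ?_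
    obtain ⟨ε₀, hε₀, h1⟩ := (hL τ hτ).1 μ hF.meas hF.bd
    refine ⟨ε₀, hε₀, fun ε h2 h3 => ?_⟩
    have h4 := (h1 ε h2 h3).1
    rw [hκs] at h4
    exact h4
  · intro hz
    have h5 : ‖∫ z : ℂ, μ z * RS (ES f X) c z‖ ≤ 0 := by
      refine hcon 0 fun τ hτ => ?_
      obtain ⟨ε₀, hε₀, h1⟩ := (hL τ hτ).1 μ hF.meas hF.bd
      refine ⟨ε₀, hε₀, fun ε h2 h3 => ?_⟩
      have h4 := (h1 ε h2 h3).2 hz
      rw [zero_add]
      exact h4
    exact norm_le_zero_iff.mp h5

end YW
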